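import Pool.Agent.Lib.MP_07129f_an.DN.Generic

/-!
For small order the extreme points of the closed convex hull of the class of strongly starlike functions are not an
F_σ set.
-/

namespace Pool.Agent.MP07129f

open Complex Metric Set Filter Topology

/-- a `G_δ` set which is dense and whose complement is dense in a set with compact closure is not an `F_σ` set -/
private theorem not_isGδ_compl {Z : Type*} [TopologicalSpace Z] [T2Space Z] {S E : Set Z} (hS : S.Nonempty)
    (hc : IsCompact (closure S)) (hE : IsGδ E) (h1 : Dense {f : S | (f : Z) ∈ E})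
    (h2 : Dense {f : S | (f : Z) ∉ E}) : ¬ IsGδ Eᶜ := by
  intro hcon
  have hB : CompactSpace (closure S) := isCompact_iff_compactSpace.1 hc
  have hd : ∀ T : Set Z, Dense {f : S | (f : Z) ∈ T} → Dense {g : closure S | (g : Z) ∈ T} := by
    intro T hT
    rw [Subtype.dense_iff] at hT ⊢
    refine closure_minimal (hT.trans (closure_mono ?_)) isClosed_closure
    rintro _ ⟨f, hf, rfl⟩
    exact ⟨⟨f, subset_closure f.2⟩, hf, rfl⟩
  have g1 : IsGδ {g : closure S | (g : Z) ∈ E} := hE.preimage continuous_subtype_val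
  have g2 : IsGδ {g : closure S | (g : Z) ∈ Eᶜ} := hcon.preimage continuous_subtype_val
  have h3 := Dense.inter_of_Gδ g1 g2 (hd E h1) (hd Eᶜ h2)
  have : Nonempty (closure S) := hS.closure.to_subtype
  obtain ⟨g, hg1, hg2⟩ := h3.nonempty
  exact hg2 hg1

theorem not_isFσ_extreme {α : ℝ} (hα : 0 < α) (hα1 : α ≤ 1 / 20) :
    ¬ IsGδ ((closure (convexHull ℝ (SStar α))).extremePoints ℝ)ᶜ := by
  have hα2 : α < 1 := by linarith
  have hω : IsSchwarz (fun _ => 0) := ⟨differentiableOn_const 0, rfl, fun z _ => by simp⟩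
  obtain ⟨g, hg, -⟩ := exists_gen hα hα2 hω
  refine not_isGδ_compl ⟨g, hg⟩ ?_ (isGδ_extreme hα hα2) (dense_extreme hα hα1) (dense_not_extreme hα hα2)
  exact (isCompact_hull hα hα2).of_isClosed_subset isClosed_closure
    (closure_mono (subset_convexHull ℝ _))

end Pool.Agent.MP07129f
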