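import Pool.Agent.Lib.MP_07129f_an.Nec

/-! Continuity of the map from Schwarz functions to strongly starlike functions on compact sets. -/

namespace Pool.Agent.MP07129f

open Complex Metric Set

private lemma cay_re_pos {w : ℂ} (hw : ‖w‖ < 1) : 0 < ((1 + w) / (1 - w)).re := by
  have hne := one_sub_ne hw
  have e : (1 + w) / (1 - w) = (1 + w) * (starRingEnd ℂ) (1 - w) * ((‖1 - w‖ ^ 2 : ℝ) : ℂ)⁻¹ := by
    have h2 : ((‖1 - w‖ ^ 2 : ℝ) : ℂ) = (1 - w) * (starRingEnd ℂ) (1 - w) := by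
      rw [mul_conj, normSq_eq_norm_sq]
    have h3 : (starRingEnd ℂ) (1 - w) ≠ 0 := by
      rw [Ne, map_eq_zero]; exact hne
    rw [h2]
    field_simp
  rw [e, ← ofReal_inv, re_mul_ofReal]
  apply mul_pos
  · have h4 : ((1 + w) * (starRingEnd ℂ) (1 - w)).re = 1 - ‖w‖ ^ 2 := by
      rw [← normSq_eq_norm_sq, normSq_apply]
      simp
      ring
    rw [h4]
    nlinarith [norm_nonneg w]
  · have := norm_pos_iff.2 hne
    positivity

private noncomputable def Phi (α : ℝ) (w : ℂ) : ℂ := exp (α * log ((1 + w) / (1 - w)))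

private lemma Phi_cont (α : ℝ) {r : ℝ} (hr : r < 1) : ContinuousOn (Phi α) (closedBall 0 r) := by
  unfold Phi
  have hlt : ∀ w ∈ closedBall (0 : ℂ) r, ‖w‖ < 1 := fun w hw => (mem_closedBall_zero_iff.1 hw).trans_lt hr
  apply ContinuousOn.cexp
  apply continuousOn_const.mul
  apply ContinuousOn.clog
  · apply ContinuousOn.div
    · exact continuousOn_const.add continuousOn_id
    · exact continuousOn_const.sub continuousOn_id
    · exact fun w hw => one_sub_ne (hlt w hw)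
  · exact fun w hw => mem_slitPlane_iff.2 (Or.inl (cay_re_pos (hlt w hw)))

private lemma exp_eq_Phi {α : ℝ} {F l P ω : ℂ → ℂ} (hd : Dat α F l P)
    (hl : ∀ z ∈ ball (0 : ℂ) 1, exp (l z) = (1 + ω z) / (1 - ω z)) {z : ℂ} (hz : z ∈ ball (0 : ℂ) 1) :
    exp (α * l z) = Phi α (ω z) := by
  unfold Phi
  have h1 := abs_lt.1 (hd.im_lt z hz)
  have hpi := Real.pi_pos
  rw [← hl z hz, log_exp (by linarith) (by linarith)]

private lemma schwarz_le {ω : ℂ → ℂ} (hω : IsSchwarz ω) {z : ℂ} {r : ℝ} (hz : ‖z‖ ≤ r) (hr : r < 1) :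
    ‖ω z‖ ≤ r := by
  have hz1 : ‖z‖ < 1 := hz.trans_lt hr
  have hm : MapsTo ω (ball 0 1) (ball 0 1) := fun w hw => mem_ball_zero_iff.2 (hω.2.2 w hw)
  have h1 : ‖ω z‖ ≤ ‖z‖ := norm_le_norm_of_mapsTo_ball hω.1 (hm.mono_right ball_subset_closedBall) hω.2.1 hz1
  exact h1.trans hz

theorem close_of_close {α : ℝ} (hα : 0 < α) (hα1 : α < 1) {f : C(ball (0 : ℂ) 1, ℂ)}
    (hf : f ∈ SStar α) {ω : ℂ → ℂ} (hω : IsSchwarz ω) (hg : Gen α ω f) {r : ℝ} (hr0 : 0 < r)
    (hr : r < 1) {ε : ℝ} (hε : 0 < ε) : ∃ δ > 0, ∀ B : ℂ → ℂ, IsSchwarz B →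
      (∀ z : ℂ, ‖z‖ ≤ r → ‖B z - ω z‖ ≤ δ) → ∀ g ∈ SStar α, Gen α B g →
        ∀ z : ball (0 : ℂ) 1, ‖(z : ℂ)‖ ≤ r → ‖g z - f z‖ ≤ ε := by
  obtain ⟨F, l, P, hfF, hd, hl⟩ := exists_dat_gen hα hα1 hf hω hg
  have hsub : closedBall (0 : ℂ) r ⊆ ball 0 1 := closedBall_subset_ball hr
  have hPc : ContinuousOn (fun z => exp (P z)) (closedBall 0 r) := (hd.P_diff.continuousOn.mono hsub).cexp
  obtain ⟨M₀, hM₀⟩ := (isCompact_closedBall (0 : ℂ) r).exists_bound_of_continuousOn hPc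
  obtain ⟨M, hM1, hM⟩ : ∃ M : ℝ, 1 ≤ M ∧ ∀ z ∈ closedBall (0 : ℂ) r, ‖exp (P z)‖ ≤ M :=
    ⟨max M₀ 1, le_max_right _ _, fun z hz => (hM₀ z hz).trans (le_max_left _ _)⟩
  obtain ⟨η, hη0, hη1, hηε⟩ : ∃ η : ℝ, 0 < η ∧ η ≤ 1 ∧ M * (2 * η) ≤ ε := by
    refine ⟨min 1 (ε / (2 * M)), lt_min one_pos (by positivity), min_le_left _ _, ?_⟩
    have h1 : min 1 (ε / (2 * M)) ≤ ε / (2 * M) := min_le_right _ _
    calc M * (2 * min 1 (ε / (2 * M))) ≤ M * (2 * (ε / (2 * M))) := by gcongr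
      _ = ε := by field_simp
  have huc := (isCompact_closedBall (0 : ℂ) r).uniformContinuousOn_of_continuous (Phi_cont α hr)
  obtain ⟨δ, hδ0, hδ⟩ := Metric.uniformContinuousOn_iff.1 huc η hη0
  refine ⟨δ / 2, by positivity, ?_⟩
  intro B hB hBω g hgS hgen z hz
  obtain ⟨G, l', P', hgG, hd', hl'⟩ := exists_dat_gen hα hα1 hgS hB hgen
  -- the difference of the exponentials
  have hdiff : ∀ w : ℂ, ‖w‖ ≤ r → ‖exp (α * l w) - exp (α * l' w)‖ ≤ η := by
    intro w hw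
    have hw1 : w ∈ ball (0 : ℂ) 1 := hsub (mem_closedBall_zero_iff.2 hw)
    rw [exp_eq_Phi hd hl hw1, exp_eq_Phi hd' hl' hw1, ← dist_eq_norm]
    refine (hδ (ω w) (mem_closedBall_zero_iff.2 (schwarz_le hω hw hr)) (B w)
      (mem_closedBall_zero_iff.2 (schwarz_le hB hw hr)) ?_).le
    rw [dist_comm, dist_eq_norm]
    exact (hBω w hw).trans_lt (by linarith)
  -- the difference of the derivatives
  have hDd : DifferentiableOn ℂ (fun w => deriv P w - deriv P' w) (ball 0 1) :=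
    (hd.P_diff.deriv isOpen_ball).sub (hd'.P_diff.deriv isOpen_ball)
  have hDr : ∀ w : ℂ, ‖w‖ ≤ r → ‖deriv P w - deriv P' w‖ ≤ η / r := by
    intro w hw
    have hcl : closure (ball (0 : ℂ) r) = closedBall 0 r := closure_ball _ hr0.ne'
    refine norm_le_of_forall_mem_frontier_norm_le (U := ball (0 : ℂ) r) isBounded_ball
      (f := fun w => deriv P w - deriv P' w) ?_ ?_ (by rw [hcl]; exact mem_closedBall_zero_iff.2 hw)
    · apply DifferentiableOn.diffContOnCl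
      rw [hcl]
      exact hDd.mono hsub
    · intro u hu
      rw [frontier_ball _ hr0.ne', mem_sphere_zero_iff_norm] at hu
      have hu1 : u ∈ ball (0 : ℂ) 1 := hsub (mem_closedBall_zero_iff.2 hu.le)
      have h1 : u * (deriv P u - deriv P' u) = exp (α * l u) - exp (α * l' u) := by
        have h2 := hd.eq u hu1
        have h3 := hd'.eq u hu1
        linear_combination h2 - h3
      have h2 := hdiff u hu.le
      rw [← h1, norm_mul, hu] at h2
      rw [le_div_iff₀ hr0, mul_comm]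
      exact h2
  -- the difference of the primitives
  have hz1 : (z : ℂ) ∈ ball (0 : ℂ) 1 := z.2
  have hPz : ‖P' z - P z‖ ≤ η := by
    have h1 := (convex_closedBall (0 : ℂ) r).norm_image_sub_le_of_norm_hasDerivWithin_le
      (f := fun w => P w - P' w) (f' := fun w => deriv P w - deriv P' w) (C := η / r) (x := 0) (y := (z : ℂ))
      (fun w hw => by
        have hw1 := hsub hw
        exact (((hd.P_diff.differentiableAt (ball_nhds hw1)).hasDerivAt.sub
          (hd'.P_diff.differentiableAt (ball_nhds hw1)).hasDerivAt)).hasDerivWithinAt)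
      (fun w hw => hDr w (mem_closedBall_zero_iff.1 hw)) (mem_closedBall_self hr0.le)
      (mem_closedBall_zero_iff.2 hz)
    simp only [hd.P_zero, hd'.P_zero, sub_zero] at h1
    rw [norm_sub_rev]
    refine h1.trans ?_
    calc η / r * ‖(z : ℂ)‖ ≤ η / r * r := mul_le_mul_of_nonneg_left hz (by positivity)
      _ = η := div_mul_cancel₀ _ hr0.ne'
  rw [hfF z, hgG z, hd.F_eq _ hz1, hd'.F_eq _ hz1]
  have e1 : (z : ℂ) * exp (P' z) - z * exp (P z) = z * (exp (P z) * (exp (P' z - P z) - 1)) := by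
    rw [exp_sub]
    have := exp_ne_zero (P z)
    field_simp
  rw [e1, norm_mul, norm_mul]
  have h2 : ‖exp (P' z - P z) - 1‖ ≤ 2 * η :=
    (norm_exp_sub_one_le (hPz.trans hη1)).trans (by linarith)
  have h3 : ‖(z : ℂ)‖ ≤ 1 := hz.trans hr.le
  have h4 := hM z (mem_closedBall_zero_iff.2 hz)
  have h5 : ‖exp (P z)‖ * ‖exp (P' z - P z) - 1‖ ≤ M * (2 * η) :=
    mul_le_mul h4 h2 (norm_nonneg _) (by linarith)
  calc ‖(z : ℂ)‖ * (‖exp (P z)‖ * ‖exp (P' z - P z) - 1‖) ≤ 1 * (M * (2 * η)) :=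
        mul_le_mul h3 h5 (by positivity) zero_le_one
    _ ≤ ε := by rw [one_mul]; exact hηε

end Pool.Agent.MP07129f
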