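import Pool.Agent.Lib.MP_07129f_an.Nec

/-!
The closed convex hull of the class is compact (Arzela-Ascoli).
-/

namespace Pool.Agent.MP07129f

open Complex Metric Set

/-- the bound for the values -/
private noncomputable def MM (t : ℝ) : ℝ := Real.exp (8 / (1 - t))

/-- the Lipschitz constant -/
private noncomputable def LL (ρ : ℝ) : ℝ := MM ((1 + ρ) / 2) / ((1 - ρ) / 2)

private lemma LL_pos {ρ : ℝ} (hρ : ρ < 1) : 0 < LL ρ := by
  unfold LL MM
  have : 0 < (1 - ρ) / 2 := by linarith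
  positivity

/-- the bounds shared by all members of the closed convex hull -/
private def Bd (g : ball (0 : ℂ) 1 → ℂ) : Prop :=
  (∀ z, ‖g z‖ ≤ MM ‖(z : ℂ)‖) ∧ ∀ ρ : ℝ, ρ < 1 → ∀ z w : ball (0 : ℂ) 1, ‖(z : ℂ)‖ ≤ ρ → ‖(w : ℂ)‖ ≤ ρ →
    ‖g z - g w‖ ≤ LL ρ * ‖(z : ℂ) - w‖

private lemma P_le {α : ℝ} (hα : 0 < α) (hα1 : α < 1) {F l P : ℂ → ℂ} (h : Dat α F l P) {z : ℂ}
    (hz : z ∈ ball (0 : ℂ) 1) : ‖P z‖ ≤ 8 / (1 - ‖z‖) := by
  have hz1 : ‖z‖ < 1 := mem_ball_zero_iff.1 hz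
  have hz0 := norm_nonneg z
  obtain ⟨t, ht⟩ : ∃ t, t = (1 + ‖z‖) / 2 := ⟨_, rfl⟩
  have ht0 : 1 / 2 ≤ t := by rw [ht]; linarith
  have ht1 : t < 1 := by rw [ht]; linarith
  have hzt : ‖z‖ ≤ t := by rw [ht]; linarith
  have htp : 0 < t := by linarith
  have h1t : 0 < 1 - t := by linarith
  have hdP : DifferentiableOn ℂ (deriv P) (ball 0 1) := h.P_diff.deriv isOpen_ball
  have hsub : closedBall (0 : ℂ) t ⊆ ball 0 1 := closedBall_subset_ball ht1
  have hb : ∀ x ∈ closedBall (0 : ℂ) t, ‖deriv P x‖ ≤ 4 / (1 - t) := by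
    intro x hx
    have hcl : closure (ball (0 : ℂ) t) = closedBall 0 t := closure_ball 0 htp.ne'
    refine Complex.norm_le_of_forall_mem_frontier_norm_le (U := ball (0 : ℂ) t) isBounded_ball
      ⟨hdP.mono (ball_subset_ball ht1.le), ?_⟩ (fun y hy => ?_) (by rw [hcl]; exact hx)
    · rw [hcl]
      exact hdP.continuousOn.mono hsub
    · rw [frontier_ball (0 : ℂ) htp.ne', mem_sphere_zero_iff_norm] at hy
      have hyb : y ∈ ball (0 : ℂ) 1 := mem_ball_zero_iff.2 (by rw [hy]; exact ht1)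
      have h1 := h.norm_l_le hyb
      rw [hy] at h1
      have h2 : ‖exp (α * l y)‖ ≤ (1 + t) / (1 - t) := by
        rw [norm_exp]
        have h3 : (α * l y).re ≤ Real.log (1 + t) - Real.log (1 - t) := by
          refine (re_le_norm _).trans ?_
          rw [norm_mul, norm_real, Real.norm_of_nonneg hα.le]
          have := norm_nonneg (l y)
          nlinarith
        refine (Real.exp_le_exp.2 h3).trans (le_of_eq ?_)
        rw [Real.exp_sub, Real.exp_log (by linarith), Real.exp_log h1t]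
      have h4 : ‖y * deriv P y‖ ≤ (1 + t) / (1 - t) + 1 := by
        rw [h.eq y hyb]
        refine (norm_sub_le _ _).trans ?_
        rw [norm_one]
        linarith
      rw [norm_mul, hy] at h4
      have h5 : (1 + t) / (1 - t) + 1 = 2 / (1 - t) := by
        field_simp
        ring
      rw [h5] at h4
      have h6 : 0 ≤ ‖deriv P y‖ := norm_nonneg _
      have h7 : 1 / 2 * ‖deriv P y‖ ≤ 2 / (1 - t) := (mul_le_mul_of_nonneg_right ht0 h6).trans h4
      have h8 : (4 : ℝ) / (1 - t) = 2 * (2 / (1 - t)) := by ring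
      rw [h8]
      linarith
  have h1 := (convex_closedBall (0 : ℂ) t).norm_image_sub_le_of_norm_deriv_le (f := P)
    (fun x hx => h.P_diff.differentiableAt (ball_nhds (hsub hx))) hb
    (mem_closedBall_self htp.le) (mem_closedBall_zero_iff.2 hzt)
  rw [h.P_zero, sub_zero, sub_zero] at h1
  refine h1.trans ?_
  have h2 : (4 : ℝ) / (1 - t) = 8 / (1 - ‖z‖) := by
    rw [ht]
    have : (1 : ℝ) - ‖z‖ ≠ 0 := by linarith
    have h3 : (1 : ℝ) - (1 + ‖z‖) / 2 = (1 - ‖z‖) / 2 := by ring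
    rw [h3]
    field_simp
    norm_num
  rw [h2]
  have h3 : 0 < 8 / (1 - ‖z‖) := div_pos (by norm_num) (by linarith)
  nlinarith

private lemma bd_of_mem {α : ℝ} (hα : 0 < α) (hα1 : α < 1) {f : C(ball (0 : ℂ) 1, ℂ)}
    (hf : f ∈ SStar α) : Bd f := by
  obtain ⟨F, hfF, hF, hinj, hF0, hF1, hq⟩ := hf
  obtain ⟨l, P, h⟩ := exists_dat hα hF hinj hF0 hF1 hq
  have hn : ∀ z ∈ ball (0 : ℂ) 1, ‖F z‖ ≤ MM ‖z‖ := fun z hz => by
    rw [h.F_eq z hz, norm_mul, norm_exp]
    have h1 : Real.exp (P z).re ≤ MM ‖z‖ :=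
      Real.exp_le_exp.2 ((re_le_norm _).trans (P_le hα hα1 h hz))
    have h2 := (mem_ball_zero_iff.1 hz).le
    have h3 := Real.exp_pos (P z).re
    have h4 := norm_nonneg z
    nlinarith
  refine ⟨fun z => ?_, fun ρ hρ z w hz hw => ?_⟩
  · rw [hfF z]
    exact hn z z.2
  · rw [hfF z, hfF w]
    have hR : 0 < (1 - ρ) / 2 := by linarith
    have hd : ∀ x ∈ closedBall (0 : ℂ) ρ, ‖deriv F x‖ ≤ LL ρ := by
      intro x hx
      have hx' : ‖x‖ ≤ ρ := mem_closedBall_zero_iff.1 hx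
      have hny : ∀ y ∈ closedBall x ((1 - ρ) / 2), ‖y‖ ≤ (1 + ρ) / 2 := by
        intro y hy
        rw [mem_closedBall, dist_eq_norm] at hy
        have : ‖y‖ ≤ ‖y - x‖ + ‖x‖ := by simpa using norm_add_le (y - x) x
        linarith
      have hsub : closedBall x ((1 - ρ) / 2) ⊆ ball (0 : ℂ) 1 := by
        intro y hy
        rw [mem_ball_zero_iff]
        have := hny y hy
        linarith
      refine norm_deriv_le_of_forall_mem_sphere_norm_le hR (hF.diffContOnCl_ball hsub)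
        (fun y hy => (hn y (hsub (sphere_subset_closedBall hy))).trans ?_)
      have h1 := hny y (sphere_subset_closedBall hy)
      unfold MM
      apply Real.exp_le_exp.2
      apply div_le_div_of_nonneg_left (by norm_num) (by linarith) (by linarith)
    refine (convex_closedBall (0 : ℂ) ρ).norm_image_sub_le_of_norm_deriv_le (fun x hx => ?_) hd
      (mem_closedBall_zero_iff.2 hw) (mem_closedBall_zero_iff.2 hz)
    exact hF.differentiableAt (isOpen_ball.mem_nhds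
      (mem_ball_zero_iff.2 ((mem_closedBall_zero_iff.1 hx).trans_lt hρ)))

private lemma bd_modulus (z₀ : ball (0 : ℂ) 1) {ε : ℝ} (hε : 0 < ε) :
    ∃ δ > 0, ∀ z : ball (0 : ℂ) 1, dist z z₀ < δ → ∀ g : ball (0 : ℂ) 1 → ℂ, Bd g →
      dist (g z₀) (g z) < ε := by
  have hz0 : ‖(z₀ : ℂ)‖ < 1 := mem_ball_zero_iff.1 z₀.2
  set ρ : ℝ := (1 + ‖(z₀ : ℂ)‖) / 2 with hρ
  have hρ1 : ρ < 1 := by linarith
  have hρ2 : ‖(z₀ : ℂ)‖ ≤ ρ := by linarith
  have h1ρ : 0 < 1 - ρ := by linarith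
  have hL := LL_pos hρ1
  refine ⟨min ((1 - ‖(z₀ : ℂ)‖) / 2) (ε / LL ρ), lt_min (by linarith) (by positivity),
    fun z hz g hg => ?_⟩
  have hzd : dist z z₀ = ‖(z : ℂ) - z₀‖ := by rw [Subtype.dist_eq, dist_eq_norm]
  rw [hzd] at hz
  have hz1 := lt_of_lt_of_le hz (min_le_left _ _)
  have hz2 := lt_of_lt_of_le hz (min_le_right _ _)
  have hzρ : ‖(z : ℂ)‖ ≤ ρ := by
    have : ‖(z : ℂ)‖ ≤ ‖(z : ℂ) - z₀‖ + ‖(z₀ : ℂ)‖ := by
      simpa using norm_add_le ((z : ℂ) - z₀) z₀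
    linarith
  rw [dist_eq_norm]
  have h := hg.2 ρ hρ1 z₀ z hρ2 hzρ
  rw [norm_sub_rev (z₀ : ℂ) z] at h
  refine h.trans_lt ?_
  rw [lt_div_iff₀ hL] at hz2
  linarith

private lemma isClosed_bd : IsClosed {g : ball (0 : ℂ) 1 → ℂ | Bd g} := by
  have e : {g : ball (0 : ℂ) 1 → ℂ | Bd g} = (⋂ z : ball (0 : ℂ) 1, {g | ‖g z‖ ≤ MM ‖(z : ℂ)‖}) ∩
      ⋂ (ρ : ℝ) (_ : ρ < 1) (z : ball (0 : ℂ) 1) (w : ball (0 : ℂ) 1) (_ : ‖(z : ℂ)‖ ≤ ρ)
        (_ : ‖(w : ℂ)‖ ≤ ρ), {g | ‖g z - g w‖ ≤ LL ρ * ‖(z : ℂ) - w‖} := by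
    ext g
    simp only [Bd, mem_ofPred_eq, mem_inter_iff, mem_iInter]
  rw [e]
  refine (isClosed_iInter fun z => isClosed_le (continuous_apply z).norm continuous_const).inter ?_
  refine isClosed_iInter fun ρ => isClosed_iInter fun _ => isClosed_iInter fun z =>
    isClosed_iInter fun w => isClosed_iInter fun _ => isClosed_iInter fun _ => ?_
  exact isClosed_le ((continuous_apply z).sub (continuous_apply w)).norm continuous_const

private lemma isCompact_bd : IsCompact {f : C(ball (0 : ℂ) 1, ℂ) | Bd f} := by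
  refine ArzelaAscoli.isCompact_of_equicontinuous _ ?_ ?_
  · have e : ContinuousMap.toFun '' {f : C(ball (0 : ℂ) 1, ℂ) | Bd f} =
        {g : ball (0 : ℂ) 1 → ℂ | Bd g} := by
      ext g
      constructor
      · rintro ⟨f, hf, rfl⟩
        exact hf
      · intro hg
        refine ⟨⟨g, ?_⟩, hg, rfl⟩
        rw [Metric.continuous_iff]
        intro z₀ ε hε
        obtain ⟨δ, hδ, h⟩ := bd_modulus z₀ hε
        refine ⟨δ, hδ, fun z hz => ?_⟩
        rw [dist_comm]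
        exact h z hz g hg
    rw [e]
    refine IsCompact.of_isClosed_subset
      (isCompact_univ_pi fun z : ball (0 : ℂ) 1 => isCompact_closedBall (0 : ℂ) (MM ‖(z : ℂ)‖)) isClosed_bd ?_
    intro g hg z _
    exact mem_closedBall_zero_iff.2 (hg.1 z)
  · intro z₀
    rw [Metric.equicontinuousAt_iff]
    intro ε hε
    obtain ⟨δ, hδ, h⟩ := bd_modulus z₀ hε
    exact ⟨δ, hδ, fun z hz f => h z hz _ f.2⟩

private lemma convex_bd : Convex ℝ {f : C(ball (0 : ℂ) 1, ℂ) | Bd f} := by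
  intro f hf g hg a b ha hb hab
  have key : ∀ (u v : ℂ) (c : ℝ), ‖u‖ ≤ c → ‖v‖ ≤ c → ‖a • u + b • v‖ ≤ c := by
    intro u v c hu hv
    refine (norm_add_le _ _).trans ?_
    rw [norm_smul, norm_smul, Real.norm_of_nonneg ha, Real.norm_of_nonneg hb]
    calc a * ‖u‖ + b * ‖v‖ ≤ a * c + b * c := by gcongr
      _ = c := by rw [← add_mul, hab, one_mul]
  refine ⟨fun z => ?_, fun ρ hρ z w hz hw => ?_⟩
  · simpa using key (f z) (g z) _ (hf.1 z) (hg.1 z)
  · have h := key _ _ _ (hf.2 ρ hρ z w hz hw) (hg.2 ρ hρ z w hz hw)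
    have e : (a • f + b • g) z - (a • f + b • g) w = a • (f z - f w) + b • (g z - g w) := by
      simp only [ContinuousMap.add_apply, ContinuousMap.smul_apply, smul_sub]
      abel
    rw [e]
    exact h

theorem isCompact_hull {α : ℝ} (hα : 0 < α) (hα1 : α < 1) :
    IsCompact (closure (convexHull ℝ (SStar α))) := by
  refine IsCompact.of_isClosed_subset isCompact_bd isClosed_closure ?_
  refine closure_minimal (convexHull_min (fun f hf => bd_of_mem hα hα1 hf) convex_bd) ?_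
  exact isCompact_bd.isClosed

end Pool.Agent.MP07129f
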