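import Mathlib

/-! The extreme points of a compact convex set of a metrizable space are a G_δ set. -/

namespace Pool.Agent.MP07129f

private theorem exists_midpoint {E : Type*} [AddCommGroup E] [Module ℝ E] {K : Set E}
    (hc : Convex ℝ K) {x x1 x2 : E} (h1 : x1 ∈ K) (h2 : x2 ∈ K) (hx : x ∈ openSegment ℝ x1 x2)
    (hne : x1 ≠ x) : ∃ p q : E, p ∈ K ∧ q ∈ K ∧ p ≠ q ∧ midpoint ℝ p q = x := by
  obtain ⟨a, b, ha, hb, hab, rfl⟩ := hx
  have hne' : x1 ≠ x2 := by
    rintro rfl
    exact hne (by rw [← add_smul, hab, one_smul])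
  set t : ℝ := min a b with ht
  have ht0 : 0 < t := lt_min ha hb
  have hta : t ≤ a := min_le_left a b
  have htb : t ≤ b := min_le_right a b
  refine ⟨(a + t) • x1 + (b - t) • x2, (a - t) • x1 + (b + t) • x2, ?_, ?_, ?_, ?_⟩
  · exact hc h1 h2 (by linarith) (by linarith) (by linarith)
  · exact hc h1 h2 (by linarith) (by linarith) (by linarith)
  · intro h
    apply hne'
    have h3 : (2 * t) • (x1 - x2) = 0 := by
      have h4 := sub_eq_zero.mpr h
      rw [← h4]
      module
    rcases smul_eq_zero.mp h3 with h5 | h5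
    · exfalso; linarith
    · exact sub_eq_zero.mp h5
  · rw [midpoint_eq_smul_add]
    simp only [invOf_eq_inv]
    module

theorem isGδ_extremePoints {E : Type*} [AddCommGroup E] [Module ℝ E] [TopologicalSpace E]
    [IsTopologicalAddGroup E] [ContinuousSMul ℝ E] [TopologicalSpace.MetrizableSpace E] {K : Set E}
    (hK : IsCompact K) (hc : Convex ℝ K) : IsGδ (K.extremePoints ℝ) := by
  let _ := TopologicalSpace.metrizableSpaceMetric E
  set C : ℕ → Set (E × E) := fun n => (K ×ˢ K) ∩ {p | 1 / ((n : ℝ) + 1) ≤ dist p.1 p.2} with hC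
  have hCc : ∀ n, IsCompact (C n) := fun n =>
    (hK.prod hK).inter_right (isClosed_le continuous_const (continuous_fst.dist continuous_snd))
  have hmc : Continuous (fun p : E × E => midpoint ℝ p.1 p.2) := by
    have : (fun p : E × E => midpoint ℝ p.1 p.2) = fun p : E × E => (⅟2 : ℝ) • (p.1 + p.2) := by
      funext p
      exact midpoint_eq_smul_add ℝ p.1 p.2
    rw [this]
    fun_prop
  set T : ℕ → Set E := fun n => (fun p : E × E => midpoint ℝ p.1 p.2) '' C n with hT
  have hTc : ∀ n, IsClosed (T n) := fun n => ((hCc n).image hmc).isClosed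
  have hEq : K.extremePoints ℝ = K ∩ ⋂ n, (T n)ᶜ := by
    ext x
    constructor
    · intro hx
      refine ⟨hx.1, Set.mem_iInter.mpr fun n => ?_⟩
      rintro ⟨⟨p, q⟩, ⟨⟨hp, hq⟩, hpq⟩, hm⟩
      simp only [Set.mem_ofPred_eq] at hpq hm
      have hpos : 0 < dist p q := lt_of_lt_of_le (by positivity) hpq
      have hne : p ≠ q := dist_pos.mp hpos
      have hseg : x ∈ openSegment ℝ p q := by
        refine ⟨1 / 2, 1 / 2, by norm_num, by norm_num, by norm_num, ?_⟩
        rw [← hm, midpoint_eq_smul_add]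
        simp only [invOf_eq_inv]
        module
      have h1 := (mem_extremePoints.mp hx).2 p hp q hq hseg
      exact hne (h1.1.trans h1.2.symm)
    · rintro ⟨hxK, hx⟩
      by_contra hcon
      rw [mem_extremePoints] at hcon
      push Not at hcon
      obtain ⟨x1, h1, x2, h2, hseg, hne⟩ := hcon hxK
      have hex : ∃ p q : E, p ∈ K ∧ q ∈ K ∧ p ≠ q ∧ midpoint ℝ p q = x := by
        by_cases h3 : x1 = x
        · have h4 : x2 ≠ x := hne h3
          rw [openSegment_symm] at hseg
          exact exists_midpoint hc h2 h1 hseg h4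
        · exact exists_midpoint hc h1 h2 hseg h3
      obtain ⟨p, q, hp, hq, hpq, hm⟩ := hex
      obtain ⟨n, hn⟩ := exists_nat_one_div_lt (dist_pos.mpr hpq)
      exact (Set.mem_iInter.mp hx n) ⟨(p, q), ⟨⟨hp, hq⟩, hn.le⟩, hm⟩
  rw [hEq]
  exact hK.isClosed.isGδ.inter (IsGδ.iInter fun n => (hTc n).isOpen_compl.isGδ)

end Pool.Agent.MP07129f
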