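import Pool.Agent.Lib.MP_07129f_an.Defs

/-! Schwarz functions are locally uniform limits of polynomials of norm less than one on the closed disc. -/

namespace Pool.Agent.MP07129f

open Complex Metric Set

theorem exists_poly_near {ω : ℂ → ℂ} (hω : IsSchwarz ω) {r : ℝ} (hr : r < 1) {ε : ℝ} (hε : 0 < ε) :
    ∃ (n : ℕ) (a : ℕ → ℂ) (μ : ℝ), a 0 = 0 ∧ μ < 1 ∧
      (∀ z : ℂ, ‖z‖ ≤ 1 → ‖∑ k ∈ Finset.range (n + 1), a k * z ^ k‖ ≤ μ) ∧
      ∀ z : ℂ, ‖z‖ ≤ r → ‖ω z - ∑ k ∈ Finset.range (n + 1), a k * z ^ k‖ ≤ ε := by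
  obtain ⟨hd, h0, hb⟩ := hω
  -- uniform continuity
  obtain ⟨δ, hδ, hδu⟩ : ∃ δ > 0, ∀ x ∈ closedBall (0 : ℂ) r, ∀ y ∈ closedBall (0 : ℂ) r,
      dist x y < δ → dist (ω x) (ω y) < ε / 2 := by
    have hsub : closedBall (0 : ℂ) r ⊆ ball 0 1 := closedBall_subset_ball hr
    have hc : ContinuousOn ω (closedBall 0 r) := hd.continuousOn.mono hsub
    have hu := (isCompact_closedBall (0 : ℂ) r).uniformContinuousOn_of_continuous hc
    rw [Metric.uniformContinuousOn_iff] at hu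
    exact hu (ε / 2) (half_pos hε)
  obtain ⟨ρ, hρd⟩ : ∃ ρ : ℝ, ρ = max (1 - δ / 2) (1 / 2) := ⟨_, rfl⟩
  have hρ1 : 1 - δ / 2 ≤ ρ := by rw [hρd]; exact le_max_left _ _
  have hρ2 : 1 / 2 ≤ ρ := by rw [hρd]; exact le_max_right _ _
  have hρ3 : ρ < 1 := by
    rw [hρd, max_lt_iff]
    constructor <;> linarith
  have hρ0 : 0 < ρ := by linarith
  obtain ⟨g, hg⟩ : ∃ g : ℂ → ℂ, ∀ z, g z = ω ((ρ : ℂ) * z) := ⟨_, fun z => rfl⟩
  have hnorm : ∀ z : ℂ, ‖(ρ : ℂ) * z‖ = ρ * ‖z‖ := by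
    intro z
    rw [norm_mul, Complex.norm_real, Real.norm_of_nonneg hρ0.le]
  have hgρ : ∀ z : ℂ, ‖z‖ ≤ 1 → ‖g z‖ ≤ ρ := by
    intro z hz
    have h1 : ‖(ρ : ℂ) * z‖ < 1 := by
      rw [hnorm]
      nlinarith [norm_nonneg z]
    have h2 : MapsTo ω (ball 0 1) (closedBall 0 1) := by
      intro x hx
      rw [mem_closedBall_zero_iff]
      exact (hb x hx).le
    have h3 := Complex.norm_le_norm_of_mapsTo_ball hd h2 h0 h1
    rw [hg]
    refine h3.trans ?_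
    rw [hnorm]
    nlinarith [norm_nonneg z]
  have hgω : ∀ z : ℂ, ‖z‖ ≤ r → ‖ω z - g z‖ ≤ ε / 2 := by
    intro z hz
    have h1 : dist z ((ρ : ℂ) * z) < δ := by
      rw [dist_eq_norm]
      have h2 : z - (ρ : ℂ) * z = ((1 - ρ : ℝ) : ℂ) * z := by push_cast; ring
      rw [h2, norm_mul, Complex.norm_real, Real.norm_of_nonneg (by linarith)]
      nlinarith [norm_nonneg z]
    have h3 := hδu z (by rw [mem_closedBall_zero_iff]; exact hz) ((ρ : ℂ) * z) (by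
      rw [mem_closedBall_zero_iff, hnorm]
      nlinarith [norm_nonneg z]) h1
    rw [hg, ← dist_eq_norm]
    exact h3.le
  -- the power series
  have hρi : 1 < 1 / ρ := by
    rw [lt_div_iff₀ hρ0]
    linarith
  obtain ⟨R, hRd⟩ : ∃ R : NNReal, R = ⟨(1 + 1 / ρ) / 2, by linarith⟩ := ⟨_, rfl⟩
  have hR : (R : ℝ) = (1 + 1 / ρ) / 2 := by rw [hRd]; rfl
  obtain ⟨s, hsd⟩ : ∃ s : NNReal, s = ⟨(1 + (R : ℝ)) / 2, by rw [hR]; linarith⟩ := ⟨_, rfl⟩
  have hs : (s : ℝ) = (1 + (R : ℝ)) / 2 := by rw [hsd]; rfl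
  have hR1 : 1 < (R : ℝ) := by rw [hR]; linarith
  have hR2 : (R : ℝ) < 1 / ρ := by rw [hR]; linarith
  have hs1 : 1 < (s : ℝ) := by rw [hs]; linarith
  have hsR : (s : ℝ) < R := by rw [hs]; linarith
  have hgd : DifferentiableOn ℂ g (closedBall 0 R) := by
    have hgf : g = fun z => ω ((ρ : ℂ) * z) := funext hg
    rw [hgf]
    refine DifferentiableOn.comp (t := ball 0 1) hd ?_ ?_
    · exact (differentiable_id.const_mul (ρ : ℂ)).differentiableOn
    · intro z hz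
      rw [mem_closedBall_zero_iff] at hz
      rw [mem_ball_zero_iff]
      change ‖(ρ : ℂ) * z‖ < 1
      rw [hnorm]
      have h1 : ρ * ‖z‖ ≤ ρ * R := mul_le_mul_of_nonneg_left hz hρ0.le
      have h2 : ρ * R < ρ * (1 / ρ) := mul_lt_mul_of_pos_left hR2 hρ0
      rw [mul_one_div_cancel hρ0.ne'] at h2
      linarith
  have hRpos : 0 < R := by
    have : (0 : ℝ) < (R : ℝ) := by linarith
    exact_mod_cast this
  have hp := hgd.hasFPowerSeriesOnBall hRpos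
  obtain ⟨p, hpd⟩ : ∃ p, p = cauchyPowerSeries g 0 R := ⟨_, rfl⟩
  rw [← hpd] at hp
  have hsR' : ((s : NNReal) : ENNReal) < (R : ENNReal) := by
    rw [ENNReal.coe_lt_coe]
    exact_mod_cast hsR
  have htu := hp.tendstoUniformlyOn hsR'
  rw [Metric.tendstoUniformlyOn_iff] at htu
  have hη : 0 < min (ε / 2) ((1 - ρ) / 2) := lt_min (half_pos hε) (by linarith)
  obtain ⟨n, hn⟩ := (Filter.eventually_atTop.1 (htu _ hη))
  have hn1 := hn (n + 1) (Nat.le_succ n)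
  have hsumeq : ∀ z : ℂ, p.partialSum (n + 1) z =
      ∑ k ∈ Finset.range (n + 1), p.coeff k * z ^ k := by
    intro z
    rw [FormalMultilinearSeries.partialSum]
    apply Finset.sum_congr rfl
    intro k _
    rw [FormalMultilinearSeries.apply_eq_pow_smul_coeff, smul_eq_mul, mul_comm]
  have hclose : ∀ z : ℂ, ‖z‖ ≤ 1 →
      ‖g z - ∑ k ∈ Finset.range (n + 1), p.coeff k * z ^ k‖ < min (ε / 2) ((1 - ρ) / 2) := by
    intro z hz
    have h1 := hn1 z (by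
      rw [mem_ball_zero_iff]
      linarith)
    rw [zero_add, hsumeq, dist_eq_norm] at h1
    exact h1
  refine ⟨n, fun k => p.coeff k, (1 + ρ) / 2, ?_, by linarith, ?_, ?_⟩
  · have h1 : p 0 (1 : Fin 0 → ℂ) = g 0 := hp.coeff_zero _
    change p 0 (1 : Fin 0 → ℂ) = 0
    rw [h1, hg, mul_zero, h0]
  · intro z hz
    have h1 := hclose z hz
    have h2 := hgρ z hz
    have h3 : ∑ k ∈ Finset.range (n + 1), p.coeff k * z ^ k =
        g z - (g z - ∑ k ∈ Finset.range (n + 1), p.coeff k * z ^ k) := by ring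
    have h4 := norm_sub_le (g z) (g z - ∑ k ∈ Finset.range (n + 1), p.coeff k * z ^ k)
    rw [← h3] at h4
    have h5 := lt_of_lt_of_le h1 (min_le_right _ _)
    change ‖∑ k ∈ Finset.range (n + 1), p.coeff k * z ^ k‖ ≤ (1 + ρ) / 2
    linarith
  · intro z hz
    have h1 := hclose z (by linarith)
    have h2 := hgω z hz
    have h3 : ω z - ∑ k ∈ Finset.range (n + 1), p.coeff k * z ^ k =
        (ω z - g z) + (g z - ∑ k ∈ Finset.range (n + 1), p.coeff k * z ^ k) := by ring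
    have h4 := norm_add_le (ω z - g z) (g z - ∑ k ∈ Finset.range (n + 1), p.coeff k * z ^ k)
    rw [← h3] at h4
    have h5 := lt_of_lt_of_le h1 (min_le_left _ _)
    change ‖ω z - ∑ k ∈ Finset.range (n + 1), p.coeff k * z ^ k‖ ≤ ε
    linarith

end Pool.Agent.MP07129f
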