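import Pool.Agent.Lib.MP_07129f_an.DN.Rat
import Pool.Agent.Lib.MP_07129f_an.DN.Pol
import Pool.Agent.Lib.MP_07129f_an.DN.Cont
import Pool.Agent.Lib.MP_07129f_an.DN.Gd
import Pool.Agent.Lib.MP_07129f_an.DN.Cpt
import Pool.Agent.Lib.MP_07129f_an.Cor

/-!
The extreme points of the closed convex hull of the class of strongly starlike functions: a G_δ set, its complement in
the class is dense, and for small order it is dense in the class.
-/

namespace Pool.Agent.MP07129f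

open Complex Metric Set Filter Topology

private theorem isInner_of_circle {B : ℂ → ℂ} (h : ∀ z : ℂ, ‖z‖ = 1 → ContinuousAt B z ∧ ‖B z‖ = 1) :
    IsInner B := by
  refine Filter.Eventually.of_forall fun θ => ?_
  have h1 : ‖exp (θ * I)‖ = 1 := norm_exp_ofReal_mul_I θ
  obtain ⟨hc, hn⟩ := h _ h1
  have h2 : Tendsto (fun r : ℝ => (r : ℂ) * exp (θ * I)) (𝓝[<] 1) (𝓝 (exp (θ * I))) := by
    have h3 : Continuous (fun r : ℝ => (r : ℂ) * exp (θ * I)) := by fun_prop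
    have h4 := h3.tendsto 1
    simp only [ofReal_one, one_mul] at h4
    exact h4.mono_left nhdsWithin_le_nhds
  have h5 := (hc.tendsto.comp h2).norm
  rw [hn] at h5
  exact h5

/-- approximation on the discs of radius below one gives membership in the closure -/
private theorem mem_closure_of_approx {S : Set C(ball (0 : ℂ) 1, ℂ)} {f : C(ball (0 : ℂ) 1, ℂ)}
    (h : ∀ r : ℝ, 0 < r → r < 1 → ∀ ε : ℝ, 0 < ε → ∃ g ∈ S,
      ∀ z : ball (0 : ℂ) 1, ‖(z : ℂ)‖ ≤ r → ‖g z - f z‖ ≤ ε) : f ∈ closure S := by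
  have hr0 : ∀ n : ℕ, (0 : ℝ) < 1 - 1 / (n + 2) := fun n => by
    have : (1 : ℝ) / (n + 2) < 1 := by
      rw [div_lt_one (by positivity)]
      have : (0 : ℝ) ≤ n := Nat.cast_nonneg n
      linarith
    linarith
  have hr1 : ∀ n : ℕ, (1 : ℝ) - 1 / (n + 2) < 1 := fun n => by
    have : (0 : ℝ) < 1 / (n + 2) := by positivity
    linarith
  choose g hgE hg using fun n : ℕ => h _ (hr0 n) (hr1 n) _ (show (0 : ℝ) < 1 / (n + 1) by positivity)
  refine mem_closure_of_tendsto (f := g) (b := atTop) ?_ (Filter.Eventually.of_forall hgE)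
  rw [ContinuousMap.tendsto_iff_forall_isCompact_tendstoUniformlyOn]
  intro K hK
  rcases K.eq_empty_or_nonempty with hKe | hKn
  · rw [hKe]
    exact tendstoUniformlyOn_empty
  obtain ⟨z₀, hz₀, hmax⟩ := hK.exists_isMaxOn hKn
    (f := fun z : ball (0 : ℂ) 1 => ‖(z : ℂ)‖) (by fun_prop)
  have hz1 : ‖(z₀ : ℂ)‖ < 1 := mem_ball_zero_iff.1 z₀.2
  rw [Metric.tendstoUniformlyOn_iff]
  intro ε hε
  have t1 : Tendsto (fun n : ℕ => (1 : ℝ) / (n + 1)) atTop (𝓝 0) := tendsto_one_div_add_atTop_nhds_zero_nat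
  have t2 : Tendsto (fun n : ℕ => (1 : ℝ) - 1 / (n + 2)) atTop (𝓝 1) := by
    have h3 : Tendsto (fun n : ℕ => (1 : ℝ) / (n + 2)) atTop (𝓝 0) := by
      have := t1.comp (tendsto_add_atTop_nat 1)
      refine this.congr fun n => ?_
      simp only [Function.comp]
      push_cast
      ring
    simpa using h3.const_sub 1
  filter_upwards [t1.eventually (gt_mem_nhds hε), t2.eventually (lt_mem_nhds hz1)] with n h1 h2
  intro z hz
  have h3 : ‖(z : ℂ)‖ ≤ 1 - 1 / (n + 2) := (hmax hz).trans h2.le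
  rw [dist_comm, dist_eq_norm]
  exact (hg n z h3).trans_lt h1

/-- in a subtype -/
private theorem dense_of_approx {α : ℝ} {T : Set C(ball (0 : ℂ) 1, ℂ)}
    (h : ∀ f ∈ SStar α, ∀ r : ℝ, 0 < r → r < 1 → ∀ ε : ℝ, 0 < ε → ∃ g ∈ SStar α, g ∈ T ∧
      ∀ z : ball (0 : ℂ) 1, ‖(z : ℂ)‖ ≤ r → ‖g z - f z‖ ≤ ε) :
    Dense {f : SStar α | (f : C(ball (0 : ℂ) 1, ℂ)) ∈ T} := by
  intro f
  rw [closure_subtype]
  refine mem_closure_of_approx fun r hr0 hr ε hε => ?_
  obtain ⟨g, hgS, hgT, hg⟩ := h f f.2 r hr0 hr ε hε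
  exact ⟨g, ⟨⟨g, hgS⟩, hgT, rfl⟩, hg⟩

theorem dense_extreme {α : ℝ} (hα : 0 < α) (hα1 : α ≤ 1 / 20) :
    Dense {f : SStar α | (f : C(ball (0 : ℂ) 1, ℂ)) ∈
      (closure (convexHull ℝ (SStar α))).extremePoints ℝ} := by
  have hα2 : α < 1 := by linarith
  refine dense_of_approx fun f hf r hr0 hr ε hε => ?_
  obtain ⟨ω, hω, hg⟩ := exists_schwarz hα hf
  obtain ⟨δ, hδ, hδ'⟩ := close_of_close hα hα2 hf hω hg hr0 hr hε
  obtain ⟨n, a, μ, h0, hμ, hp, hpω⟩ := exists_poly_near hω hr (half_pos hδ)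
  obtain ⟨B, hB, hBc, hBp⟩ := exists_inner_near n a h0 hμ hp hr0.le hr (half_pos hδ)
  obtain ⟨g, hgS, hgB⟩ := exists_gen hα hα2 hB
  refine ⟨g, hgS, extreme_of_inner hα hα1 hgS hB hgB (isInner_of_circle hBc),
    hδ' B hB (fun z hz => ?_) g hgS hgB⟩
  have h1 := hBp z hz
  have h2 := hpω z hz
  rw [norm_sub_rev] at h2
  calc ‖B z - ω z‖ = ‖(B z - ∑ k ∈ Finset.range (n + 1), a k * z ^ k) +
        (∑ k ∈ Finset.range (n + 1), a k * z ^ k - ω z)‖ := by rw [sub_add_sub_cancel]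
    _ ≤ δ / 2 + δ / 2 := (norm_add_le _ _).trans (add_le_add h1 h2)
    _ = δ := by ring

theorem dense_not_extreme {α : ℝ} (hα : 0 < α) (hα1 : α < 1) :
    Dense {f : SStar α | (f : C(ball (0 : ℂ) 1, ℂ)) ∉
      (closure (convexHull ℝ (SStar α))).extremePoints ℝ} := by
  refine dense_of_approx
    (T := {f | f ∉ (closure (convexHull ℝ (SStar α))).extremePoints ℝ}) fun f hf r hr0 hr ε hε => ?_
  obtain ⟨ω, hω, hg⟩ := exists_schwarz hα hf
  obtain ⟨δ, hδ, hδ'⟩ := close_of_close hα hα1 hf hω hg hr0 hr hε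
  obtain ⟨ρ, hρ⟩ : ∃ ρ, ρ = min δ (1 / 2) := ⟨_, rfl⟩
  have hρ0 : 0 < ρ := by rw [hρ]; exact lt_min hδ (by norm_num)
  have hρδ : ρ ≤ δ := by rw [hρ]; exact min_le_left _ _
  have hρ1 : ρ ≤ 1 / 2 := by rw [hρ]; exact min_le_right _ _
  have hc : ‖((1 - ρ : ℝ) : ℂ)‖ = 1 - ρ := by
    rw [norm_real, Real.norm_of_nonneg (by linarith)]
  have hB : IsSchwarz (fun z => ((1 - ρ : ℝ) : ℂ) * ω z) := by
    refine ⟨hω.1.const_mul _, by simp [hω.2.1], fun z hz => ?_⟩
    rw [norm_mul, hc]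
    have := hω.2.2 z hz
    have := norm_nonneg (ω z)
    nlinarith
  obtain ⟨g, hgS, hgB⟩ := exists_gen hα hα1 hB
  refine ⟨g, hgS, fun hext => ?_, hδ' _ hB (fun z hz => ?_) g hgS hgB⟩
  · have h1 := ballExtreme_of_extreme hα hα1 hgS hB hgB hext
    have h2 := h1 (fun z => (ρ : ℂ) * z) (differentiableOn_id.const_mul _) (fun z hz => ?_) (1 / 2)
      (by rw [mem_ball_zero_iff]; norm_num)
    · have h3 : (ρ : ℂ) ≠ 0 := ofReal_ne_zero.2 hρ0.ne'
      rcases mul_eq_zero.1 h2 with h4 | h4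
      · exact h3 h4
      · norm_num at h4
    · have h3 : ‖((1 - ρ : ℝ) : ℂ) * ω z‖ ≤ 1 - ρ := by
        rw [norm_mul, hc]
        have := (hω.2.2 z hz).le
        have := norm_nonneg (ω z)
        nlinarith
      have h4 : ‖(ρ : ℂ) * z‖ ≤ ρ := by
        rw [norm_mul, norm_real, Real.norm_of_nonneg hρ0.le]
        have := (mem_ball_zero_iff.1 hz).le
        nlinarith
      constructor
      · exact (norm_add_le _ _).trans (by linarith)
      · exact (norm_sub_le _ _).trans (by linarith)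
  · have hz1 : z ∈ ball (0 : ℂ) 1 := mem_ball_zero_iff.2 (lt_of_le_of_lt hz hr)
    have e : ((1 - ρ : ℝ) : ℂ) * ω z - ω z = -((ρ : ℂ) * ω z) := by
      push_cast
      ring
    rw [e, norm_neg, norm_mul, norm_real, Real.norm_of_nonneg hρ0.le]
    have := (hω.2.2 z hz1).le
    have := norm_nonneg (ω z)
    nlinarith

private theorem metrizable_C : TopologicalSpace.MetrizableSpace C(ball (0 : ℂ) 1, ℂ) := by
  have h1 : LocallyCompactSpace (ball (0 : ℂ) 1) := isOpen_ball.locallyCompactSpace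
  have h2 : SigmaCompactSpace (ball (0 : ℂ) 1) := sigmaCompactSpace_of_locallyCompact_secondCountable
  exact UniformSpace.metrizableSpace

theorem isGδ_extreme {α : ℝ} (hα : 0 < α) (hα1 : α < 1) :
    IsGδ ((closure (convexHull ℝ (SStar α))).extremePoints ℝ) := by
  have := metrizable_C
  exact isGδ_extremePoints (isCompact_hull hα hα1) (convex_convexHull ℝ _).closure

end Pool.Agent.MP07129f
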