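import Pool.Agent.Lib.MP_07129f_an.Defs

/-! A rational inner function near a given polynomial. -/

namespace Pool.Agent.MP07129f

open Complex Metric Set

theorem exists_inner_near (n : ℕ) (a : ℕ → ℂ) (h0 : a 0 = 0) {μ : ℝ} (hμ : μ < 1)
    (h : ∀ z : ℂ, ‖z‖ ≤ 1 → ‖∑ k ∈ Finset.range (n + 1), a k * z ^ k‖ ≤ μ)
    {r : ℝ} (hr0 : 0 ≤ r) (hr : r < 1) {ε : ℝ} (hε : 0 < ε) :
    ∃ B : ℂ → ℂ, IsSchwarz B ∧ (∀ z : ℂ, ‖z‖ = 1 → ContinuousAt B z ∧ ‖B z‖ = 1) ∧
      ∀ z : ℂ, ‖z‖ ≤ r → ‖B z - ∑ k ∈ Finset.range (n + 1), a k * z ^ k‖ ≤ ε := by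
  obtain ⟨p, hp⟩ : ∃ p : ℂ → ℂ, ∀ z, p z = ∑ k ∈ Finset.range (n + 1), a k * z ^ k :=
    ⟨_, fun _ => rfl⟩
  obtain ⟨s, hs⟩ : ∃ s : ℂ → ℂ, ∀ z, s z = ∑ k ∈ Finset.range (n + 1),
      (starRingEnd ℂ) (a k) * z ^ (n - k) := ⟨_, fun _ => rfl⟩
  have hpd : Differentiable ℂ p := by
    have : p = fun z => ∑ k ∈ Finset.range (n + 1), a k * z ^ k := funext hp
    rw [this]
    fun_prop
  have hsd : Differentiable ℂ s := by
    have : s = fun z => ∑ k ∈ Finset.range (n + 1), (starRingEnd ℂ) (a k) * z ^ (n - k) := funext hs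
    rw [this]
    fun_prop
  have hpμ : ∀ z : ℂ, ‖z‖ ≤ 1 → ‖p z‖ ≤ μ := fun z hz => by rw [hp]; exact h z hz
  have hμ0 : 0 ≤ μ := (norm_nonneg _).trans (hpμ 0 (by simp))
  have hp0 : p 0 = 0 := by
    rw [hp, Finset.sum_range_succ']
    simp [h0]
  have hcirc : ∀ z : ℂ, ‖z‖ = 1 → z * (starRingEnd ℂ) z = 1 := by
    intro z hz
    rw [Complex.mul_conj, Complex.normSq_eq_norm_sq, hz]
    simp
  have hsc : ∀ z : ℂ, ‖z‖ = 1 → s z = z ^ n * (starRingEnd ℂ) (p z) := by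
    intro z hz
    rw [hs, hp, map_sum, Finset.mul_sum]
    refine Finset.sum_congr rfl fun k hk => ?_
    have hkn : k ≤ n := Nat.lt_succ_iff.1 (Finset.mem_range.1 hk)
    rw [map_mul, map_pow]
    have h1 : z ^ n = z ^ (n - k) * z ^ k := by rw [← pow_add, Nat.sub_add_cancel hkn]
    have h2 : z ^ k * (starRingEnd ℂ) z ^ k = 1 := by rw [← mul_pow, hcirc z hz, one_pow]
    calc (starRingEnd ℂ) (a k) * z ^ (n - k)
        = (starRingEnd ℂ) (a k) * z ^ (n - k) * (z ^ k * (starRingEnd ℂ) z ^ k) := by rw [h2, mul_one]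
      _ = z ^ n * ((starRingEnd ℂ) (a k) * (starRingEnd ℂ) z ^ k) := by rw [h1]; ring
  have hsμ : ∀ z : ℂ, ‖z‖ ≤ 1 → ‖s z‖ ≤ μ := by
    intro z hz
    refine Complex.norm_le_of_forall_mem_frontier_norm_le (U := ball (0 : ℂ) 1) isBounded_ball
      hsd.diffContOnCl (fun w hw => ?_) ?_
    · rw [frontier_ball (0 : ℂ) one_ne_zero, mem_sphere_zero_iff_norm] at hw
      rw [hsc w hw, norm_mul, norm_pow, hw, one_pow, one_mul, RCLike.norm_conj]
      exact hpμ w hw.le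
    · rw [closure_ball (0 : ℂ) one_ne_zero, mem_closedBall_zero_iff]
      exact hz
  obtain ⟨m, hm⟩ := exists_pow_lt_of_lt_one (show 0 < ε * (1 - μ) / 2 by
    have : 0 < 1 - μ := by linarith
    positivity) hr
  obtain ⟨den, hden⟩ : ∃ den : ℂ → ℂ, ∀ z, den z = 1 + z ^ (m + 1) * s z := ⟨_, fun _ => rfl⟩
  obtain ⟨num, hnum⟩ : ∃ num : ℂ → ℂ, ∀ z, num z = z ^ (n + (m + 1)) + p z := ⟨_, fun _ => rfl⟩
  have hdd : Differentiable ℂ den := by
    have : den = fun z => 1 + z ^ (m + 1) * s z := funext hden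
    rw [this]
    exact (differentiable_const _).add ((differentiable_id.pow _).mul hsd)
  have hnd : Differentiable ℂ num := by
    have : num = fun z => z ^ (n + (m + 1)) + p z := funext hnum
    rw [this]
    exact (differentiable_id.pow _).add hpd
  have hdl : ∀ z : ℂ, ‖z‖ ≤ 1 → 1 - μ ≤ ‖den z‖ := by
    intro z hz
    rw [hden]
    have h1 : ‖z ^ (m + 1) * s z‖ ≤ μ := by
      rw [norm_mul, norm_pow]
      have h2 : ‖z‖ ^ (m + 1) ≤ 1 := pow_le_one₀ (norm_nonneg _) hz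
      calc ‖z‖ ^ (m + 1) * ‖s z‖ ≤ 1 * ‖s z‖ := mul_le_mul_of_nonneg_right h2 (norm_nonneg _)
        _ ≤ μ := by rw [one_mul]; exact hsμ z hz
    have h3 : ‖(1 : ℂ)‖ - ‖z ^ (m + 1) * s z‖ ≤ ‖1 + z ^ (m + 1) * s z‖ := by
      have := norm_sub_norm_le (1 : ℂ) (-(z ^ (m + 1) * s z))
      rwa [norm_neg, sub_neg_eq_add] at this
    rw [norm_one] at h3
    linarith
  have hd0 : ∀ z : ℂ, ‖z‖ ≤ 1 → den z ≠ 0 := by
    intro z hz h1
    have := hdl z hz
    rw [h1, norm_zero] at this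
    linarith
  obtain ⟨B, hB⟩ : ∃ B : ℂ → ℂ, ∀ z, B z = num z / den z := ⟨_, fun _ => rfl⟩
  have hBd : ∀ z : ℂ, ‖z‖ ≤ 1 → DifferentiableAt ℂ B z := by
    intro z hz
    have : B = fun z => num z / den z := funext hB
    rw [this]
    exact (hnd z).div (hdd z) (hd0 z hz)
  have hBc : ∀ z : ℂ, ‖z‖ = 1 → ‖B z‖ = 1 := by
    intro z hz
    have h1 : num z = z ^ (n + (m + 1)) * (starRingEnd ℂ) (den z) := by
      rw [hnum, hden, hsc z hz, map_add, map_one, map_mul, map_mul, map_pow, map_pow,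
        Complex.conj_conj]
      have h2 : z ^ (n + (m + 1)) * ((starRingEnd ℂ) z ^ (m + 1) * ((starRingEnd ℂ) z ^ n * p z)) =
          (z * (starRingEnd ℂ) z) ^ (n + (m + 1)) * p z := by
        rw [mul_pow, pow_add ((starRingEnd ℂ) z) n (m + 1)]
        ring
      rw [mul_add, mul_one, h2, hcirc z hz, one_pow, one_mul]
    rw [hB, norm_div, h1, norm_mul, norm_pow, hz, one_pow, one_mul, RCLike.norm_conj]
    exact div_self (norm_ne_zero_iff.2 (hd0 z hz.le))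
  have hB0 : B 0 = 0 := by
    rw [hB, hnum, hp0, zero_pow (by omega), add_zero, zero_div]
  have hBon : DifferentiableOn ℂ B (closure (ball (0 : ℂ) 1)) := by
    rw [closure_ball (0 : ℂ) one_ne_zero]
    intro z hz
    rw [mem_closedBall_zero_iff] at hz
    exact (hBd z hz).differentiableWithinAt
  have hBle : ∀ z : ℂ, ‖z‖ ≤ 1 → ‖B z‖ ≤ 1 := by
    intro z hz
    refine Complex.norm_le_of_forall_mem_frontier_norm_le (U := ball (0 : ℂ) 1) isBounded_ball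
      hBon.diffContOnCl (fun w hw => ?_) ?_
    · rw [frontier_ball (0 : ℂ) one_ne_zero, mem_sphere_zero_iff_norm] at hw
      exact (hBc w hw).le
    · rw [closure_ball (0 : ℂ) one_ne_zero, mem_closedBall_zero_iff]
      exact hz
  have hBball : DifferentiableOn ℂ B (ball (0 : ℂ) 1) := hBon.mono subset_closure
  refine ⟨B, ⟨hBball, hB0, fun z hz => ?_⟩, fun z hz => ⟨(hBd z hz.le).continuousAt, hBc z hz⟩,
    fun z hz => ?_⟩
  · by_contra hcon
    push Not at hcon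
    have hmax : IsMaxOn (norm ∘ B) (ball (0 : ℂ) 1) z := by
      intro w hw
      have hw' : ‖w‖ ≤ 1 := (mem_ball_zero_iff.1 hw).le
      show ‖B w‖ ≤ ‖B z‖
      exact (hBle w hw').trans hcon
    have h1 := Complex.norm_eqOn_of_isPreconnected_of_isMaxOn (convex_ball (0 : ℂ) 1).isPreconnected
      isOpen_ball hBball hz hmax (mem_ball_self one_pos)
    have h2 : ‖B 0‖ = ‖B z‖ := h1
    rw [hB0, norm_zero] at h2
    linarith
  · have hz1 : ‖z‖ ≤ 1 := hz.trans hr.le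
    have hdz := hd0 z hz1
    have h1 : B z - p z = z ^ (m + 1) * (z ^ n - p z * s z) / den z := by
      rw [hB, eq_div_iff hdz, sub_mul, div_mul_cancel₀ _ hdz, hnum, hden, pow_add]
      ring
    rw [← hp, h1, norm_div, norm_mul, norm_pow]
    have h2 : ‖z ^ n - p z * s z‖ ≤ 2 := by
      have h3 : ‖z ^ n‖ ≤ 1 := by rw [norm_pow]; exact pow_le_one₀ (norm_nonneg _) hz1
      have h4 : ‖p z * s z‖ ≤ 1 := by
        rw [norm_mul]
        have h5 := hpμ z hz1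
        have h6 := hsμ z hz1
        have h7 := norm_nonneg (p z)
        have h8 := norm_nonneg (s z)
        nlinarith
      have h5 := norm_sub_le (z ^ n) (p z * s z)
      linarith
    have h3 : ‖z‖ ^ (m + 1) ≤ r ^ m := by
      calc ‖z‖ ^ (m + 1) ≤ r ^ (m + 1) := pow_le_pow_left₀ (norm_nonneg _) hz _
        _ ≤ r ^ m := pow_le_pow_of_le_one hr0 hr.le (Nat.le_succ m)
    have h4 := hdl z hz1
    have h5 : 0 < 1 - μ := by linarith
    have h6 : 0 < ‖den z‖ := lt_of_lt_of_le h5 h4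
    rw [div_le_iff₀ h6]
    calc ‖z‖ ^ (m + 1) * ‖z ^ n - p z * s z‖ ≤ r ^ m * 2 :=
          mul_le_mul h3 h2 (norm_nonneg _) (pow_nonneg hr0 _)
      _ ≤ ε * (1 - μ) := by linarith
      _ ≤ ε * ‖den z‖ := mul_le_mul_of_nonneg_left h4 hε.le

end Pool.Agent.MP07129f
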